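import Mathlib

namespace Pool.Agent.Lib_helper78.E3

open Module

variable {F K : Type*} [Field F] [Fintype F] [DecidableEq F] [Field K] [Fintype K] [Algebra F K]

/-- `x ↦ (Tr x, Tr (g x))`. -/
noncomputable def L (F : Type*) {K : Type*} [Field F] [Field K] [Algebra F K] (g : K) : K →ₗ[F] F × F :=
  (Algebra.trace F K).prod ((Algebra.trace F K).comp (LinearMap.mulLeft F g))

theorem L_apply (g x : K) : L F g x = (Algebra.trace F K x, Algebra.trace F K (g * x)) := rfl

theorem L_surj (g : K) (hg : g ∉ (algebraMap F K).range) : Function.Surjective (L F g) := by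
  have : FiniteDimensional F K := Module.Finite.of_finite
  rw [← LinearMap.range_eq_top]
  by_contra hne
  obtain ⟨f, hf0, hf⟩ := Submodule.exists_le_ker_of_lt_top _ (lt_top_iff_ne_top.2 hne)
  set α := f (1, 0) with hα
  set β := f (0, 1) with hβ
  have hfx : ∀ s t : F, f (s, t) = s * α + t * β := by
    intro s t
    have : ((s, t) : F × F) = s • (1, 0) + t • (0, 1) := by simp
    rw [this, map_add, map_smul, map_smul]; simp [hα, hβ]
  have hz : ∀ x : K, Algebra.trace F K ((algebraMap F K α + algebraMap F K β * g) * x) = 0 := by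
    intro x
    have h1 : f (L F g x) = 0 := by
      have : L F g x ∈ LinearMap.range (L F g) := ⟨x, rfl⟩
      exact hf this
    rw [L_apply, hfx] at h1
    have h2 : (algebraMap F K α + algebraMap F K β * g) * x = α • x + β • (g * x) := by
      rw [Algebra.smul_def, Algebra.smul_def]; ring
    rw [h2, map_add, map_smul, map_smul, smul_eq_mul, smul_eq_mul]
    linear_combination h1
  have hnd := traceForm_nondegenerate F K
  have h0 : algebraMap F K α + algebraMap F K β * g = 0 := by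
    by_contra hc
    obtain ⟨y, hy⟩ := Algebra.trace_surjective F K 1
    have := hz ((algebraMap F K α + algebraMap F K β * g)⁻¹ * y)
    rw [← mul_assoc, mul_inv_cancel₀ hc, one_mul, hy] at this
    exact one_ne_zero this
  by_cases hb : β = 0
  · rw [hb, map_zero, zero_mul, add_zero] at h0
    have ha : α = 0 := by
      rwa [map_eq_zero] at h0
    apply hf0
    apply LinearMap.ext
    rintro ⟨s, t⟩
    rw [hfx, ha, hb]; simp
  · apply hg
    refine ⟨-α / β, ?_⟩
    have hb' : algebraMap F K β ≠ 0 := by rwa [Ne, map_eq_zero]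
    rw [map_div₀, map_neg]
    field_simp
    linear_combination -h0

theorem sum_fib (g : K) (hg : g ∉ (algebraMap F K).range) (h3 : Module.finrank F K = 3) (h : F × F → ℝ) :
    ∑ x : K, h (L F g x) = (Fintype.card F : ℝ) * ∑ y : F × F, h y := by
  classical
  have : FiniteDimensional F K := Module.Finite.of_finite
  obtain ⟨σ, hσ⟩ := (L F g).exists_rightInverse_of_surjective (LinearMap.range_eq_top.2 (L_surj g hg))
  have hσ' : ∀ y, L F g (σ y) = y := fun y => by
    have := LinearMap.congr_fun hσ y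
    simpa using this
  let e : (LinearMap.ker (L F g)) × (F × F) ≃ K :=
    { toFun := fun p => (p.1 : K) + σ p.2
      invFun := fun x => (⟨x - σ (L F g x), by simp [hσ']⟩, L F g x)
      left_inv := by
        rintro ⟨⟨k, hk⟩, y⟩
        have hk' : L F g k = 0 := hk
        simp [hk', hσ']
      right_inv := by intro x; simp }
  have : Fintype (LinearMap.ker (L F g)) := Fintype.ofFinite _
  have hcard : Fintype.card (LinearMap.ker (L F g)) = Fintype.card F := by
    have h1 := Fintype.card_congr e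
    rw [Fintype.card_prod, Fintype.card_prod, Module.card_eq_pow_finrank (K := F) (V := K), h3] at h1
    have hq : 0 < Fintype.card F := Fintype.card_pos
    have : Fintype.card (LinearMap.ker (L F g)) * (Fintype.card F * Fintype.card F)
      = Fintype.card F * (Fintype.card F * Fintype.card F) := by rw [h1]; ring
    exact Nat.eq_of_mul_eq_mul_right (Nat.mul_pos hq hq) this
  rw [← Fintype.sum_equiv e (fun p => h p.2) (fun x => h (L F g x))]
  · rw [Fintype.sum_prod_type]
    simp only [Finset.sum_const, Finset.card_univ, nsmul_eq_mul]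
    rw [hcard]
  · rintro ⟨⟨k, hk⟩, y⟩
    have hk' : L F g k = 0 := hk
    simp [e, hk', hσ']


/-- the units of `F` inside those of `K` -/
def N (F K : Type*) [Field F] [Field K] [Algebra F K] : Subgroup Kˣ :=
  (Units.map (algebraMap F K : F →* K)).range

theorem card_N : Nat.card (N F K) = Fintype.card F - 1 := by
  have hinj : Function.Injective (Units.map (algebraMap F K : F →* K)) :=
    Units.map_injective (algebraMap F K).injective
  have := Nat.card_congr (MonoidHom.ofInjective hinj).toEquiv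
  rw [show Nat.card (N F K) = Nat.card (Units.map (algebraMap F K : F →* K)).range from rfl, ← this,
    Nat.card_eq_fintype_card, Fintype.card_units]

theorem sum_G (φ : Kˣ → ℝ) (hφ : ∀ x, ∀ n ∈ N F K, φ (x * n) = φ x) [Fintype Kˣ] [Fintype (Kˣ ⧸ N F K)] :
    ∑ x : Kˣ, φ x = ((Fintype.card F : ℝ) - 1) * ∑ y : Kˣ ⧸ N F K, φ y.out := by
  classical
  have : Fintype (N F K) := Fintype.ofFinite _
  let e : (Kˣ ⧸ N F K) × (N F K) ≃ Kˣ :=
    { toFun := fun p => p.1.out * (p.2 : Kˣ)
      invFun := fun x => ((x : Kˣ ⧸ N F K), ⟨((x : Kˣ ⧸ N F K).out)⁻¹ * x,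
        QuotientGroup.eq.1 (QuotientGroup.out_eq' (x : Kˣ ⧸ N F K))⟩)
      left_inv := by
        rintro ⟨y, n, hn⟩
        have h1 : ((y.out * n : Kˣ) : Kˣ ⧸ N F K) = y := by
          rw [QuotientGroup.mk_mul_of_mem _ hn, QuotientGroup.out_eq']
        refine Prod.ext h1 (Subtype.ext ?_)
        simp only [h1]
        rw [← mul_assoc, inv_mul_cancel, one_mul]
      right_inv := by intro x; simp }
  rw [← Fintype.sum_equiv e (fun p => φ p.1.out) φ]
  · rw [Fintype.sum_prod_type]
    simp only [Finset.sum_const, Finset.card_univ, nsmul_eq_mul]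
    rw [← Finset.mul_sum]
    congr 1
    have h := card_N (F := F) (K := K)
    rw [Nat.card_eq_fintype_card] at h
    rw [h, Nat.cast_sub Fintype.card_pos, Nat.cast_one]
  · rintro ⟨y, n, hn⟩
    exact (hφ _ n hn).symm

theorem card_G (h3 : Module.finrank F K = 3) :
    Nat.card (Kˣ ⧸ N F K) = Fintype.card F ^ 2 + Fintype.card F + 1 := by
  have h1 := Subgroup.card_eq_card_quotient_mul_card_subgroup (N F K)
  rw [card_N, Nat.card_units, Nat.card_eq_fintype_card, Module.card_eq_pow_finrank (K := F) (V := K), h3] at h1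
  have hq : 1 < Fintype.card F := Fintype.one_lt_card
  obtain ⟨m, hm⟩ : ∃ m, Fintype.card F = m + 1 := ⟨Fintype.card F - 1, by omega⟩
  rw [hm] at h1 ⊢
  have hm0 : 0 < m := by omega
  have h2 : (m + 1) ^ 3 - 1 = ((m + 1) ^ 2 + (m + 1) + 1) * m := by
    have : (m + 1) ^ 3 = ((m + 1) ^ 2 + (m + 1) + 1) * m + 1 := by ring
    omega
  rw [h2, Nat.add_sub_cancel] at h1
  exact (Nat.eq_of_mul_eq_mul_right hm0 h1).symm

/-- the key function of two traces -/
noncomputable def H (F : Type*) [Field F] [Fintype F] [DecidableEq F] (y : F × F) : ℝ :=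
  2 * ((quadraticChar F (y.1 * y.2) : ℤ) : ℝ) + 2 * (if y.1 = 0 ∧ y.2 = 0 then 1 else 0)

theorem H_smul (c : F) (hc : c ≠ 0) (y : F × F) : H F (c * y.1, c * y.2) = H F y := by
  unfold H
  have h1 : quadraticChar F (c * y.1 * (c * y.2)) = quadraticChar F (y.1 * y.2) := by
    rw [show c * y.1 * (c * y.2) = c ^ 2 * (y.1 * y.2) by ring, map_mul]
    rw [quadraticChar_sq_one' hc, one_mul]
  simp only [h1, mul_eq_zero, hc, false_or]

theorem H_sum (h2 : ringChar F ≠ 2) : ∑ y : F × F, H F y = 2 := by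
  unfold H
  rw [Finset.sum_add_distrib, ← Finset.mul_sum, ← Finset.mul_sum]
  have h0 : ∑ y : F × F, ((quadraticChar F (y.1 * y.2) : ℤ) : ℝ) = 0 := by
    rw [Fintype.sum_prod_type]
    have hs := quadraticChar_sum_zero h2
    have hs' : (∑ x : F, ((quadraticChar F x : ℤ) : ℝ)) = 0 := by exact_mod_cast hs
    simp_rw [map_mul, Int.cast_mul, ← Finset.mul_sum, hs', mul_zero]
    simp
  have h1 : ∑ y : F × F, (if y.1 = 0 ∧ y.2 = 0 then (1 : ℝ) else 0) = 1 := by
    rw [Finset.sum_eq_single (0, 0)]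
    · simp
    · rintro ⟨s, t⟩ _ hst
      rw [if_neg]
      rintro ⟨h, h'⟩
      exact hst (by simp_all)
    · intro h; exact absurd (Finset.mem_univ _) h
  rw [h0, h1]; norm_num

theorem H_units (h2 : ringChar F ≠ 2) (h3 : Module.finrank F K = 3) (g : K)
    (hg : g ∉ (algebraMap F K).range) [Fintype Kˣ] :
    ∑ x : Kˣ, H F (L F g (x : K)) = 2 * ((Fintype.card F : ℝ) - 1) := by
  classical
  have hs := sum_fib g hg h3 (H F)
  rw [H_sum h2, Fintype.sum_eq_add_sum_subtype_ne _ (0 : K)] at hs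
  have h0 : H F (L F g 0) = 2 := by
    rw [map_zero]; unfold H; simp
  rw [h0] at hs
  have : ∑ x : Kˣ, H F (L F g (x : K)) = ∑ x : {x : K // x ≠ 0}, H F (L F g x.1) :=
    Fintype.sum_equiv unitsEquivNeZero _ _ (fun x => rfl)
  rw [this]
  linear_combination hs

/-- functions on the quotient -/
noncomputable def f (F K : Type*) [Field F] [Fintype F] [DecidableEq F] [Field K] [Algebra F K]
    (y : Kˣ ⧸ N F K) : ℝ :=
  ((quadraticChar F (Algebra.trace F K (((y.out : Kˣ) : K) ^ 2)) : ℤ) : ℝ)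

noncomputable def d (F K : Type*) [Field F] [DecidableEq F] [Field K] [Algebra F K]
    (y : Kˣ ⧸ N F K) : ℝ :=
  if Algebra.trace F K (((y.out : Kˣ) : K) ^ 2) = 0 then 1 else 0

theorem tr_smul_sq (x n : Kˣ) (hn : n ∈ N F K) : ∃ c : F, c ≠ 0 ∧ (∀ z : K, Algebra.trace F K ((n : K) * z) = c * Algebra.trace F K z)
    ∧ (∀ z : K, Algebra.trace F K ((n : K) ^ 2 * z) = c ^ 2 * Algebra.trace F K z) := by
  obtain ⟨c, rfl⟩ := hn
  refine ⟨(c : F), c.ne_zero, fun z => ?_, fun z => ?_⟩
  · have : ((Units.map (algebraMap F K : F →* K) c : Kˣ) : K) * z = (c : F) • z := by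
      rw [Algebra.smul_def]; rfl
    rw [this, map_smul, smul_eq_mul]
  · have : ((Units.map (algebraMap F K : F →* K) c : Kˣ) : K) ^ 2 * z = ((c : F) ^ 2) • z := by
      rw [Algebra.smul_def, map_pow]; rfl
    rw [this, map_smul, smul_eq_mul]

theorem f_mk (x : Kˣ) : f F K (x : Kˣ ⧸ N F K) = ((quadraticChar F (Algebra.trace F K ((x : K) ^ 2)) : ℤ) : ℝ) := by
  obtain ⟨n, hn⟩ := QuotientGroup.mk_out_eq_mul (N F K) x
  unfold f
  obtain ⟨c, hc, -, h2⟩ := tr_smul_sq (F := F) x n n.2
  rw [hn, Units.val_mul, mul_pow, mul_comm, h2, map_mul, quadraticChar_sq_one' hc, one_mul]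

theorem d_mk (x : Kˣ) : d F K (x : Kˣ ⧸ N F K) = if Algebra.trace F K ((x : K) ^ 2) = 0 then 1 else 0 := by
  obtain ⟨n, hn⟩ := QuotientGroup.mk_out_eq_mul (N F K) x
  unfold d
  obtain ⟨c, hc, -, h2⟩ := tr_smul_sq (F := F) x n n.2
  rw [hn, Units.val_mul, mul_pow, mul_comm, h2]
  simp [hc]

theorem pm (y : Kˣ ⧸ N F K) : (f F K y + d F K y = 1 ∨ f F K y + d F K y = -1) ∧
    (f F K y - d F K y = 1 ∨ f F K y - d F K y = -1) := by
  unfold f d
  by_cases h : Algebra.trace F K (((y.out : Kˣ) : K) ^ 2) = 0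
  · simp [h]
  · rcases quadraticChar_dichotomy h with h' | h' <;> simp [h, h']

theorem corrG (h2 : ringChar F ≠ 2) (h3 : Module.finrank F K = 3) (g : Kˣ ⧸ N F K) (hg : g ≠ 1)
    [Fintype (Kˣ ⧸ N F K)] :
    ∑ x : Kˣ ⧸ N F K, ((f F K x + d F K x) * (f F K (x * g) + d F K (x * g))
      + (f F K x - d F K x) * (f F K (x * g) - d F K (x * g))) = 2 := by
  classical
  obtain ⟨g0, rfl⟩ := QuotientGroup.mk_surjective g
  have hcop : (Nat.card (Kˣ ⧸ N F K)).Coprime 2 := by
    rw [card_G h3, Nat.coprime_two_right]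
    have : Even (Fintype.card F ^ 2 + Fintype.card F) := by
      rw [sq, ← Nat.mul_succ]; exact Nat.even_mul_succ_self _
    exact this.add_one
  have hg2 : ((g0 : K) ^ 2) ∉ (algebraMap F K).range := by
    rintro ⟨c, hc⟩
    apply hg
    have hc0 : c ≠ 0 := by
      rintro rfl
      rw [map_zero] at hc
      exact (pow_ne_zero 2 g0.ne_zero) hc.symm
    have hmem : g0 ^ 2 ∈ N F K := ⟨Units.mk0 c hc0, by ext; simpa using hc⟩
    have h1 : ((g0 : Kˣ ⧸ N F K)) ^ 2 = 1 := by
      rw [← QuotientGroup.mk_pow]; exact (QuotientGroup.eq_one_iff _).2 hmem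
    apply (powCoprime hcop).injective
    simp [powCoprime, h1]
  set φ : Kˣ → ℝ := fun x => H F (L F ((g0 : K) ^ 2) (x : K)) with hφ
  have hinv : ∀ x, ∀ n ∈ N F K, φ (x * n) = φ x := by
    intro x n hn
    obtain ⟨c, hc, h1, -⟩ := tr_smul_sq (F := F) x n hn
    simp only [hφ, L_apply, Units.val_mul]
    rw [mul_comm (x : K) (n : K), h1,
      show (g0 : K) ^ 2 * ((n : K) * (x : K)) = (n : K) * ((g0 : K) ^ 2 * (x : K)) by ring, h1]
    exact H_smul c hc (_, _)
  have hφmk : ∀ x : Kˣ, φ ((x : Kˣ ⧸ N F K).out) = φ x := by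
    intro x
    obtain ⟨n, hn⟩ := QuotientGroup.mk_out_eq_mul (N F K) x
    rw [hn, hinv _ _ n.2]
  have hsum : ∑ y : Kˣ ⧸ N F K, φ y.out = 2 := by
    have h4 := sum_G φ hinv
    have h5 : ∑ x : Kˣ, φ x = 2 * ((Fintype.card F : ℝ) - 1) := H_units h2 h3 _ hg2
    rw [h5] at h4
    have hq : (1 : ℝ) < Fintype.card F := by exact_mod_cast Fintype.one_lt_card
    have hq' : (Fintype.card F : ℝ) - 1 ≠ 0 := by linarith
    exact (mul_left_cancel₀ hq' (by linear_combination h4)).symm
  rw [← hsum]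
  refine Fintype.sum_equiv (powCoprime hcop) _ _ ?_
  intro x
  obtain ⟨x0, rfl⟩ := QuotientGroup.mk_surjective x
  have e1 : (powCoprime hcop) ((x0 : Kˣ ⧸ N F K)) = ((x0 ^ 2 : Kˣ) : Kˣ ⧸ N F K) := rfl
  rw [e1, hφmk, ← QuotientGroup.mk_mul, f_mk, f_mk, d_mk, d_mk]
  simp only [hφ, L_apply, H, Units.val_mul, Units.val_pow_eq_pow_val, map_mul, Int.cast_mul]
  have e2 : ((x0 : K) * (g0 : K)) ^ 2 = (g0 : K) ^ 2 * (x0 : K) ^ 2 := by ring
  simp only [e2]
  by_cases ha : Algebra.trace F K ((x0 : K) ^ 2) = 0 <;>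
  by_cases hb : Algebra.trace F K ((g0 : K) ^ 2 * (x0 : K) ^ 2) = 0 <;>
  simp [ha, hb] <;> ring

/-- **E3.** -/
theorem singer (F K : Type) [Field F] [Fintype F] [DecidableEq F] [Field K] [Fintype K] [Algebra F K]
    (hF : ringChar F ≠ 2) (h3 : Module.finrank F K = 3) :
    ∃ (G : Type) (_ : AddCommGroup G) (_ : Fintype G) (_ : DecidableEq G) (a b : G → ℝ),
      Fintype.card G = Fintype.card F ^ 2 + Fintype.card F + 1 ∧
      (∀ g, a g = 1 ∨ a g = -1) ∧ (∀ g, b g = 1 ∨ b g = -1) ∧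
      ∀ g, g ≠ 0 → ∑ x, (a x * a (x + g) + b x * b (x + g)) = 2 := by
  classical
  have i1 : Fintype (Kˣ ⧸ N F K) := Fintype.ofFinite _
  refine ⟨Additive (Kˣ ⧸ N F K), inferInstance, (inferInstance : Fintype (Kˣ ⧸ N F K)), inferInstance,
    fun x => f F K x.toMul + d F K x.toMul, fun x => f F K x.toMul - d F K x.toMul, ?_,
    fun g => (pm _).1, fun g => (pm _).2, ?_⟩
  · have := card_G (F := F) (K := K) h3
    rw [Nat.card_eq_fintype_card] at this
    exact this
  · intro g hg
    exact corrG hF h3 g.toMul (fun h => hg h)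

end Pool.Agent.Lib_helper78.E3
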