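import Mathlib
import Pool.Agent.Lib_helper78.PAL.E3

namespace Pool.Agent.Lib_helper78.E3

/-- **E3 for every odd prime power.** -/
theorem singer_pow (p k : ℕ) (hp : p.Prime) (hp2 : p ≠ 2) (hk : 1 ≤ k) :
    ∃ (G : Type) (_ : AddCommGroup G) (_ : Fintype G) (_ : DecidableEq G) (a b : G → ℝ),
      Fintype.card G = (p ^ k) ^ 2 + p ^ k + 1 ∧
      (∀ g, a g = 1 ∨ a g = -1) ∧ (∀ g, b g = 1 ∨ b g = -1) ∧
      ∀ g, g ≠ 0 → ∑ x, (a x * a (x + g) + b x * b (x + g)) = 2 := by
  classical
  have := Fact.mk hp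
  have i1 : Fintype (GaloisField p k) := Fintype.ofFinite _
  have hcard : Fintype.card (GaloisField p k) = p ^ k := by
    rw [← Nat.card_eq_fintype_card]; exact GaloisField.card p k (by omega)
  have hchar : ringChar (GaloisField p k) ≠ 2 := by
    rw [ringChar.eq (GaloisField p k) p]; exact hp2
  have i2 : Fintype (FiniteField.Extension (GaloisField p k) p 3) := Fintype.ofFinite _
  have h := singer (GaloisField p k) (FiniteField.Extension (GaloisField p k) p 3) hchar
    (FiniteField.finrank_extension (GaloisField p k) p 3)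
  rwa [hcard] at h

end Pool.Agent.Lib_helper78.E3
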